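import Mathlib
import Pool.Agent.Helper43.OD.Basic

set_option autoImplicit false

namespace Pool.Agent.Helper43.SF

open Finset Polynomial
open Pool.Agent.Helper43.OD (h)

/-- the double zeta value with exponent r on the larger and s on the smaller variable -/
noncomputable def Z (r s : ℕ) : ℝ :=
  ∑' p : ℕ × ℕ, (1 : ℝ) / ((((p.1 + p.2 + 2 : ℕ) : ℝ) ^ r) * (((p.2 + 1 : ℕ) : ℝ) ^ s))

/-- zeta(s), s >= 2 -/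
noncomputable def zt (s : ℕ) : ℝ := ∑' n : ℕ, (1 : ℝ) / ((n + 1 : ℕ) : ℝ) ^ s

/-- (1/2) sum over j >= 1 of (N/j)^s - (-1)^s (N/(2N+j))^s - 2 [s=1] N/(N+j), in closed form -/
noncomputable def F (s N : ℕ) : ℝ :=
  if s = 1 then (1 / 2) * (N : ℝ) * (2 * h N 1 - h (2 * N) 1)
  else if Even s then (1 / 2) * (N : ℝ) ^ s * h (2 * N) s
  else (N : ℝ) ^ s * zt s - (1 / 2) * (N : ℝ) ^ s * h (2 * N) s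

/-- (1/2) sum over 1 <= n < N of (N/(N-n))^t - (N/(N+n))^t, in closed form (N >= 1) -/
noncomputable def G (t N : ℕ) : ℝ :=
  (1 / 2) * (N : ℝ) ^ t * (2 * h N t - h (2 * N) t) - (1 / 2) * (1 - (1 / 2) ^ t)

/-- the expansion coefficient of x^r, r odd: first part -/
noncomputable def X (k s : ℕ) (p : ℕ × ℕ) : ℝ :=
  1 / ((p.2 + 1 : ℕ) : ℝ) ^ k *
    ((1 / 2) * ((((p.2 + 1 : ℕ) : ℝ) / ((p.1 + 1 : ℕ) : ℝ)) ^ s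
      - (-1) ^ s * (((p.2 + 1 : ℕ) : ℝ) / ((p.1 + 2 * p.2 + 3 : ℕ) : ℝ)) ^ s)
      - (if s = 1 then ((p.2 + 1 : ℕ) : ℝ) / ((p.1 + p.2 + 2 : ℕ) : ℝ) else 0))

/-- second part -/
noncomputable def Y (k s : ℕ) (p : ℕ × ℕ) : ℝ :=
  1 / ((p.1 + p.2 + 2 : ℕ) : ℝ) ^ k *
    ((1 / 2) * ∑ t ∈ Finset.Icc 1 s, ((k - 1 - t).choose (s - t) : ℝ) *
      ((((p.1 + p.2 + 2 : ℕ) : ℝ) / ((p.1 + 1 : ℕ) : ℝ)) ^ t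
      - (((p.1 + p.2 + 2 : ℕ) : ℝ) / ((p.1 + 2 * p.2 + 3 : ℕ) : ℝ)) ^ t))

def ST_CHS : Prop := ∀ k s r : ℕ, 1 ≤ s → s + 1 ≤ k →
  (k - 1 + r).choose (s - 1) =
    ∑ t ∈ Finset.Icc 1 s, (r + t - 1).choose (t - 1) * (k - 1 - t).choose (s - t)

def ST_GEO : Prop := ∀ (k s : ℕ) (x : ℝ), 0 < x → x < 1 → Even k → 1 ≤ s → s + 1 ≤ k →
  ∑ r ∈ (Finset.range k).filter Odd, ((r - 1).choose (s - 1) : ℝ) * x ^ r =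
    (1 / 2) * ((x / (1 - x)) ^ s - (-1) ^ s * (x / (1 + x)) ^ s)
    - (1 / 2) * x ^ k * ∑ t ∈ Finset.Icc 1 s, ((k - 1 - t).choose (s - t) : ℝ) *
        ((1 / (1 - x)) ^ t - (1 / (1 + x)) ^ t)

def ST_FX : Prop := ∀ k s : ℕ, 1 ≤ s → s + 3 ≤ k →
  Summable (X k s) ∧
  HasSum (fun N : ℕ => 1 / ((N + 1 : ℕ) : ℝ) ^ k * F s (N + 1)) (∑' p : ℕ × ℕ, X k s p)

def ST_GY : Prop := ∀ k s : ℕ, 1 ≤ s → s + 3 ≤ k →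
  Summable (Y k s) ∧
  HasSum (fun N : ℕ => 1 / ((N + 1 : ℕ) : ℝ) ^ k *
    ∑ t ∈ Finset.Icc 1 s, ((k - 1 - t).choose (s - t) : ℝ) * G t (N + 1)) (∑' p : ℕ × ℕ, Y k s p)

def ST_EXPD : Prop := ∀ k s : ℕ, Even k → 1 ≤ s → s + 3 ≤ k →
  HasSum (fun N : ℕ => 1 / ((N + 1 : ℕ) : ℝ) ^ k *
      (F s (N + 1) - ∑ t ∈ Finset.Icc 1 s, ((k - 1 - t).choose (s - t) : ℝ) * G t (N + 1)))
    (∑ r ∈ (Finset.range k).filter (fun r => Odd r ∧ 3 ≤ r), ((r - 1).choose (s - 1) : ℝ) * Z r (k - r))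

def ST_BL : Prop := ∀ k r : ℕ, 2 ≤ r → r + 1 ≤ k →
  HasSum (fun N : ℕ => 1 / ((N + 1 : ℕ) : ℝ) ^ k * (((N + 1 : ℕ) : ℝ) ^ r * (zt r - h (N + 1) r)))
    (Z r (k - r))

def ST_SEP : Prop := ∀ (p : ℕ → ℝ[X]) (d E : ℕ) (C : ℝ),
  (∀ N, (p N).natDegree ≤ d) → (∀ N j, |(p N).coeff j| ≤ C * ((N + 1 : ℕ) : ℝ) ^ E) →
  {k : ℕ | HasSum (fun N : ℕ => 1 / ((N + 1 : ℕ) : ℝ) ^ k * (p N).eval (k : ℝ)) 0}.Infinite →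
  ∀ N, p N = 0

def ST_IND1 : Prop := ∀ (R : ℝ[X]) (d : ℕ) (x y : ℕ → ℝ),
  (∀ N : ℕ, 1 ≤ N → R.eval (N : ℝ) +
    ∑ s ∈ Finset.Icc 1 d, (N : ℝ) ^ s * (x s * h (2 * N) s + y s * h N s) = 0) →
  (∀ s ∈ Finset.Icc 1 d, x s = 0 ∧ y s = 0) ∧ R = 0

def ST_IND2 : Prop := ∀ (d : ℕ) (a b α β : ℕ → ℝ) (q : ℝ),
  (∀ N : ℕ, 1 ≤ N →
    ∑ s ∈ Finset.Icc 1 d, (a s * F s N - b s * G s N)
    + ∑ s ∈ (Finset.Icc 3 d).filter Odd, α s * ((N : ℝ) ^ s * (zt s - h N s))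
    + ∑ s ∈ (Finset.Icc 1 d).filter Odd, β s * ((N : ℝ) ^ s * h (N - 1) s) = q) →
  (∀ s ∈ Finset.Icc 1 d, Even s → a s = 0) ∧ (∀ s ∈ Finset.Icc 1 d, b s = a s) ∧
  (∀ s ∈ (Finset.Icc 3 d).filter Odd, α s = - a s) ∧
  (∀ s ∈ (Finset.Icc 1 d).filter Odd, β s = 0) ∧
  ∑ s ∈ Finset.Icc 1 d, (1 / 2) * a s * (1 - (1 / 2) ^ s) = q

def ST_BP : Prop := ∀ j t : ℕ, ∃ c : ℝ[X], c.natDegree ≤ j ∧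
  ∀ k : ℕ, t + 1 ≤ k → c.eval (k : ℝ) = ((k - 1 - t).choose j : ℝ)

def ST_ALG : Prop := ∀ (d : ℕ) (a : ℕ → ℝ[X]),
  (∀ s ∈ Finset.Icc 1 d, Even s → a s = 0) →
  {k : ℕ | ∀ t ∈ Finset.Icc 1 d, ∑ s ∈ Finset.Icc t d,
      (a s).eval (k : ℝ) * ((k - 1 - t).choose (s - t) : ℝ) = (a t).eval (k : ℝ)}.Infinite →
  ∀ s ∈ Finset.Icc 2 d, a s = 0

def ST_NEWT : Prop := ∀ P : ℝ[X][X], ∃ (d : ℕ) (a : ℕ → ℝ[X]), ∀ r : ℕ, 1 ≤ r → ∀ y : ℝ,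
  P.evalEval (r : ℝ) y = ∑ s ∈ Finset.Icc 1 d, (a s).eval y * ((r - 1).choose (s - 1) : ℝ)

/-- growth of the expansion coefficients -/
def ST_GRO : Prop := ∀ s : ℕ, 1 ≤ s → ∃ C : ℝ, ∀ N : ℕ, 1 ≤ N →
  |F s N| ≤ C * (N : ℝ) ^ (s + 1) ∧ |G s N| ≤ C * (N : ℝ) ^ (s + 1)

/-- the theorem: k = 2m, r = 2a+1 -/
def ST_MAIN : Prop := ∀ (P : ℝ[X][X]) (q : ℝ[X]) (d : ℕ) (α β : ℕ → ℝ[X]),
  {m : ℕ | ∑ a ∈ Finset.Icc 1 (m - 1), P.evalEval ((2 * a + 1 : ℕ) : ℝ) ((2 * m : ℕ) : ℝ) *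
        Z (2 * a + 1) (2 * m - (2 * a + 1))
      + ∑ a ∈ Finset.Icc 1 d, (α a).eval ((2 * m : ℕ) : ℝ) * Z (2 * a + 1) (2 * m - (2 * a + 1))
      + ∑ b ∈ Finset.Icc 1 d, (β b).eval ((2 * m : ℕ) : ℝ) * Z (2 * m - (2 * b - 1)) (2 * b - 1)
      = q.eval ((2 * m : ℕ) : ℝ) * zt (2 * m)}.Infinite →
  (∀ x y : ℝ, P.evalEval x y = 4 * q.eval y) ∧
  (∀ a ∈ Finset.Icc 1 d, α a = 0) ∧ (∀ b ∈ Finset.Icc 1 d, β b = 0)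

end Pool.Agent.Helper43.SF
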