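import Mathlib
import Pool.Agent.Helper43.SF.Stmts

set_option autoImplicit false

namespace Pool.Agent.Helper43.SF

open Finset Polynomial
open Pool.Agent.Helper43.OD (h)

lemma main_coeff_bd (f : ℝ[X]) : ∃ B : ℝ, 0 ≤ B ∧ ∀ j, |f.coeff j| ≤ B := by
  refine ⟨∑ j ∈ f.support, |f.coeff j|, Finset.sum_nonneg (fun _ _ => abs_nonneg _), fun j => ?_⟩
  by_cases hj : j ∈ f.support
  · exact Finset.single_le_sum (f := fun j => |f.coeff j|) (fun _ _ => abs_nonneg _) hj
  · rw [Polynomial.notMem_support_iff.1 hj, abs_zero]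
    exact Finset.sum_nonneg (fun _ _ => abs_nonneg _)

/-- swap of summation -/
lemma main_swap (D : ℕ) (f : ℕ → ℕ → ℝ) :
    ∑ s ∈ Finset.Icc 1 D, ∑ t ∈ Finset.Icc 1 s, f s t =
      ∑ t ∈ Finset.Icc 1 D, ∑ s ∈ Finset.Icc t D, f s t := by
  apply Finset.sum_comm'
  intro s t
  simp only [Finset.mem_Icc]
  omega

/-- reindexing of the odd numbers -/
lemma main_reindex1 (m : ℕ) (f : ℕ → ℝ) :
    ∑ r ∈ (Finset.range (2 * m)).filter (fun r => Odd r ∧ 3 ≤ r), f r =
      ∑ a ∈ Finset.Icc 1 (m - 1), f (2 * a + 1) := by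
  symm
  apply Finset.sum_bij (fun a _ => 2 * a + 1)
  · intro a ha
    have := Finset.mem_Icc.1 ha
    rw [Finset.mem_filter, Finset.mem_range]
    exact ⟨by omega, ⟨a, rfl⟩, by omega⟩
  · intro a _ b _ hab; omega
  · intro r hr
    rw [Finset.mem_filter, Finset.mem_range] at hr
    obtain ⟨h1, ⟨a, ha⟩, h3⟩ := hr
    exact ⟨a, Finset.mem_Icc.2 ⟨by omega, by omega⟩, ha.symm⟩
  · intro a _; rfl

lemma main_reindex2 (d D : ℕ) (hD : 2 * d + 1 ≤ D) (g : ℕ → ℝ) (f : ℕ → ℝ)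
    (hg : ∀ s, g s = if s ≤ 2 * d + 1 then f s else 0) :
    ∑ s ∈ (Finset.Icc 3 D).filter Odd, g s = ∑ a ∈ Finset.Icc 1 d, f (2 * a + 1) := by
  have h1 : ∑ s ∈ (Finset.Icc 3 D).filter Odd, g s = ∑ s ∈ (Finset.Icc 3 (2 * d + 1)).filter Odd, f s := by
    symm
    rw [← Finset.sum_subset (s₁ := (Finset.Icc 3 (2 * d + 1)).filter Odd) (s₂ := (Finset.Icc 3 D).filter Odd)]
    · apply Finset.sum_congr rfl
      intro s hs
      have := Finset.mem_Icc.1 (Finset.mem_filter.1 hs).1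
      rw [hg, if_pos this.2]
    · intro s hs
      have h1 := Finset.mem_filter.1 hs
      have h2 := Finset.mem_Icc.1 h1.1
      exact Finset.mem_filter.2 ⟨Finset.mem_Icc.2 ⟨h2.1, by omega⟩, h1.2⟩
    · intro s hs hs2
      have h1 := Finset.mem_filter.1 hs
      have h2 := Finset.mem_Icc.1 h1.1
      rw [hg, if_neg]
      intro h3
      exact hs2 (Finset.mem_filter.2 ⟨Finset.mem_Icc.2 ⟨h2.1, h3⟩, h1.2⟩)
  rw [h1]
  symm
  apply Finset.sum_bij (fun a _ => 2 * a + 1)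
  · intro a ha
    have := Finset.mem_Icc.1 ha
    rw [Finset.mem_filter, Finset.mem_Icc]
    exact ⟨⟨by omega, by omega⟩, ⟨a, rfl⟩⟩
  · intro a _ b _ hab; omega
  · intro r hr
    rw [Finset.mem_filter, Finset.mem_Icc] at hr
    obtain ⟨h1, ⟨a, ha⟩⟩ := hr
    exact ⟨a, Finset.mem_Icc.2 ⟨by omega, by omega⟩, ha.symm⟩
  · intro a _; rfl

lemma main_reindex3 (d D : ℕ) (hD : 2 * d + 1 ≤ D) (g : ℕ → ℝ) (f : ℕ → ℝ)
    (hg : ∀ s, g s = if s + 1 ≤ 2 * d then f s else 0) :
    ∑ s ∈ (Finset.Icc 1 D).filter Odd, g s = ∑ b ∈ Finset.Icc 1 d, f (2 * b - 1) := by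
  have h1 : ∑ s ∈ (Finset.Icc 1 D).filter Odd, g s = ∑ s ∈ (Finset.Icc 1 (2 * d - 1)).filter Odd, f s := by
    symm
    rw [← Finset.sum_subset (s₁ := (Finset.Icc 1 (2 * d - 1)).filter Odd) (s₂ := (Finset.Icc 1 D).filter Odd)]
    · apply Finset.sum_congr rfl
      intro s hs
      have := Finset.mem_Icc.1 (Finset.mem_filter.1 hs).1
      rw [hg, if_pos (by omega)]
    · intro s hs
      have h1 := Finset.mem_filter.1 hs
      have h2 := Finset.mem_Icc.1 h1.1
      exact Finset.mem_filter.2 ⟨Finset.mem_Icc.2 ⟨h2.1, by omega⟩, h1.2⟩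
    · intro s hs hs2
      have h1 := Finset.mem_filter.1 hs
      have h2 := Finset.mem_Icc.1 h1.1
      rw [hg, if_neg]
      intro h3
      exact hs2 (Finset.mem_filter.2 ⟨Finset.mem_Icc.2 ⟨h2.1, by omega⟩, h1.2⟩)
  rw [h1]
  symm
  apply Finset.sum_bij (fun b _ => 2 * b - 1)
  · intro a ha
    have := Finset.mem_Icc.1 ha
    rw [Finset.mem_filter, Finset.mem_Icc]
    exact ⟨⟨by omega, by omega⟩, ⟨a - 1, by omega⟩⟩
  · intro a ha b hb hab
    have h1 := Finset.mem_Icc.1 ha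
    have h2 := Finset.mem_Icc.1 hb
    omega
  · intro r hr
    rw [Finset.mem_filter, Finset.mem_Icc] at hr
    obtain ⟨h1, ⟨a, ha⟩⟩ := hr
    exact ⟨a + 1, Finset.mem_Icc.2 ⟨by omega, by omega⟩, by omega⟩
  · intro a _; rfl

lemma main_sum_bd (D : ℕ) (A : Finset ℕ) (hA : A ⊆ Finset.Icc 1 D) (f : ℕ → ℝ) (K : ℝ) (hK : 0 ≤ K)
    (hf : ∀ s ∈ A, |f s| ≤ K) : |∑ s ∈ A, f s| ≤ D * K := by
  refine le_trans (Finset.abs_sum_le_sum_abs _ _) ?_
  refine le_trans (Finset.sum_le_card_nsmul A _ K hf) ?_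
  rw [nsmul_eq_mul]
  apply mul_le_mul_of_nonneg_right _ hK
  have := Finset.card_le_card hA
  rw [Nat.card_Icc] at this
  exact_mod_cast this

theorem st_MAIN (hEXPD : ST_EXPD) (hBL : ST_BL) (hSEP : ST_SEP) (hIND2 : ST_IND2) (hBP : ST_BP)
    (hALG : ST_ALG) (hNEWT : ST_NEWT) (hGRO : ST_GRO) : ST_MAIN := by
  intro P q d α β hinf
  obtain ⟨d1, a0, ha0⟩ := hNEWT P
  choose c hcdeg hc using hBP
  obtain ⟨D, hD1, hD2⟩ : ∃ D, d1 ≤ D ∧ 2 * d + 1 ≤ D := ⟨max d1 (2 * d + 1), le_max_left _ _, le_max_right _ _⟩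
  set a : ℕ → ℝ[X] := fun s => if s ≤ d1 then a0 s else 0 with ha
  set α' : ℕ → ℝ[X] := fun s => if s ≤ 2 * d + 1 then α ((s - 1) / 2) else 0 with hα'
  set β' : ℕ → ℝ[X] := fun s => if s + 1 ≤ 2 * d then β ((s + 1) / 2) else 0 with hβ'
  set b : ℕ → ℝ[X] := fun t => ∑ s ∈ Finset.Icc t D, a s * c (s - t) t with hb
  set p : ℕ → ℝ[X] := fun N =>
    ∑ s ∈ Finset.Icc 1 D, (C (F s (N + 1)) * a s - C (G s (N + 1)) * b s)
    + ∑ s ∈ (Finset.Icc 3 D).filter Odd, C (((N + 1 : ℕ) : ℝ) ^ s * (zt s - h (N + 1) s)) * α' s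
    + ∑ s ∈ (Finset.Icc 1 D).filter Odd, C (((N + 1 : ℕ) : ℝ) ^ s * h N s) * β' s - q with hp
  -- evaluation of P
  have hP : ∀ r : ℕ, 1 ≤ r → ∀ y : ℝ, P.evalEval (r : ℝ) y =
      ∑ s ∈ Finset.Icc 1 D, (a s).eval y * ((r - 1).choose (s - 1) : ℝ) := by
    intro r hr y
    rw [ha0 r hr y]
    rw [← Finset.sum_subset (s₁ := Finset.Icc 1 d1) (s₂ := Finset.Icc 1 D)]
    · apply Finset.sum_congr rfl
      intro s hs
      simp only [ha]
      rw [if_pos (Finset.mem_Icc.1 hs).2]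
    · intro s hs
      have := Finset.mem_Icc.1 hs
      exact Finset.mem_Icc.2 ⟨this.1, by omega⟩
    · intro s hs hs2
      have h1 := Finset.mem_Icc.1 hs
      have : ¬ (s ≤ d1) := fun h2 => hs2 (Finset.mem_Icc.2 ⟨h1.1, h2⟩)
      simp only [ha]
      rw [if_neg this]; simp
  have hbk : ∀ k : ℕ, D + 2 ≤ k → ∀ t, 1 ≤ t → t ≤ D → (b t).eval (k : ℝ) =
      ∑ s ∈ Finset.Icc t D, (a s).eval (k : ℝ) * ((k - 1 - t).choose (s - t) : ℝ) := by
    intro k hk t _ ht
    simp only [hb]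
    rw [Polynomial.eval_finsetSum]
    apply Finset.sum_congr rfl
    intro s _
    rw [Polynomial.eval_mul, hc (s - t) t k (by omega)]
  -- the expansion for k = 2m
  have hexp : ∀ m : ℕ, D + 5 ≤ 2 * m →
      (∑ a ∈ Finset.Icc 1 (m - 1), P.evalEval ((2 * a + 1 : ℕ) : ℝ) ((2 * m : ℕ) : ℝ) *
        Z (2 * a + 1) (2 * m - (2 * a + 1))
      + ∑ a ∈ Finset.Icc 1 d, (α a).eval ((2 * m : ℕ) : ℝ) * Z (2 * a + 1) (2 * m - (2 * a + 1))
      + ∑ b ∈ Finset.Icc 1 d, (β b).eval ((2 * m : ℕ) : ℝ) * Z (2 * m - (2 * b - 1)) (2 * b - 1)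
      = q.eval ((2 * m : ℕ) : ℝ) * zt (2 * m)) →
      HasSum (fun N : ℕ => 1 / ((N + 1 : ℕ) : ℝ) ^ (2 * m) * (p N).eval ((2 * m : ℕ) : ℝ)) 0 := by
    intro m hm hrel
    set k := 2 * m with hk
    have hkE : Even k := ⟨m, by omega⟩
    have s1 : HasSum (fun N : ℕ => ∑ s ∈ Finset.Icc 1 D, (a s).eval (k : ℝ) * (1 / ((N + 1 : ℕ) : ℝ) ^ k *
        (F s (N + 1) - ∑ t ∈ Finset.Icc 1 s, ((k - 1 - t).choose (s - t) : ℝ) * G t (N + 1))))
        (∑ s ∈ Finset.Icc 1 D, (a s).eval (k : ℝ) *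
          (∑ r ∈ (Finset.range k).filter (fun r => Odd r ∧ 3 ≤ r), ((r - 1).choose (s - 1) : ℝ) * Z r (k - r))) := by
      apply hasSum_sum
      intro s hs
      have hs' := Finset.mem_Icc.1 hs
      exact (hEXPD k s hkE hs'.1 (by omega)).mul_left _
    have v1 : (∑ s ∈ Finset.Icc 1 D, (a s).eval (k : ℝ) *
          (∑ r ∈ (Finset.range k).filter (fun r => Odd r ∧ 3 ≤ r), ((r - 1).choose (s - 1) : ℝ) * Z r (k - r))) =
        ∑ a ∈ Finset.Icc 1 (m - 1), P.evalEval ((2 * a + 1 : ℕ) : ℝ) (k : ℝ) * Z (2 * a + 1) (k - (2 * a + 1)) := by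
      rw [← main_reindex1 m (fun r => P.evalEval ((r : ℕ) : ℝ) (k : ℝ) * Z r (k - r))]
      simp only [Finset.mul_sum]
      rw [Finset.sum_comm]
      apply Finset.sum_congr (by rw [hk])
      intro r hr
      have hr' := (Finset.mem_filter.1 hr).2.2
      rw [hP r (by omega) (k : ℝ), Finset.sum_mul]
      apply Finset.sum_congr rfl
      intro s _
      ring
    have s2 : HasSum (fun N : ℕ => ∑ s ∈ (Finset.Icc 3 D).filter Odd, (α' s).eval (k : ℝ) *
        (1 / ((N + 1 : ℕ) : ℝ) ^ k * (((N + 1 : ℕ) : ℝ) ^ s * (zt s - h (N + 1) s))))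
        (∑ s ∈ (Finset.Icc 3 D).filter Odd, (α' s).eval (k : ℝ) * Z s (k - s)) := by
      apply hasSum_sum
      intro s hs
      have hs' := Finset.mem_Icc.1 (Finset.mem_filter.1 hs).1
      exact (hBL k s (by omega) (by omega)).mul_left _
    have v2 : (∑ s ∈ (Finset.Icc 3 D).filter Odd, (α' s).eval (k : ℝ) * Z s (k - s)) =
        ∑ a ∈ Finset.Icc 1 d, (α a).eval (k : ℝ) * Z (2 * a + 1) (k - (2 * a + 1)) := by
      rw [main_reindex2 d D hD2 _ (fun s => (α ((s - 1) / 2)).eval (k : ℝ) * Z s (k - s))]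
      · apply Finset.sum_congr rfl
        intro x _
        have : (2 * x + 1 - 1) / 2 = x := by omega
        rw [this]
      · intro s
        simp only [hα']
        split_ifs <;> simp
    have s3 : HasSum (fun N : ℕ => ∑ s ∈ (Finset.Icc 1 D).filter Odd, (β' s).eval (k : ℝ) *
        (1 / ((N + 1 : ℕ) : ℝ) ^ k * (((N + 1 : ℕ) : ℝ) ^ s * h N s)))
        (∑ s ∈ (Finset.Icc 1 D).filter Odd, (β' s).eval (k : ℝ) * Z (k - s) s) := by
      apply hasSum_sum
      intro s hs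
      have hs' := Finset.mem_Icc.1 (Finset.mem_filter.1 hs).1
      have := (OD.dz_eq (k - s) s (by omega) hs'.1)
      have h2 : HasSum (fun N : ℕ => 1 / ((N + 1 : ℕ) : ℝ) ^ k * (((N + 1 : ℕ) : ℝ) ^ s * h N s)) (Z (k - s) s) := by
        refine this.congr_fun ?_
        intro N
        have hx : ((N + 1 : ℕ) : ℝ) ≠ 0 := by positivity
        have e1 : ((N + 1 : ℕ) : ℝ) ^ k = ((N + 1 : ℕ) : ℝ) ^ (k - s) * ((N + 1 : ℕ) : ℝ) ^ s := by
          rw [← pow_add]; congr 1; omega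
        rw [e1]
        field_simp
      exact h2.mul_left _
    have v3 : (∑ s ∈ (Finset.Icc 1 D).filter Odd, (β' s).eval (k : ℝ) * Z (k - s) s) =
        ∑ b ∈ Finset.Icc 1 d, (β b).eval (k : ℝ) * Z (k - (2 * b - 1)) (2 * b - 1) := by
      rw [main_reindex3 d D hD2 _ (fun s => (β ((s + 1) / 2)).eval (k : ℝ) * Z (k - s) s)]
      · apply Finset.sum_congr rfl
        intro x hx
        have h1 := Finset.mem_Icc.1 hx
        have : (2 * x - 1 + 1) / 2 = x := by omega
        rw [this]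
      · intro s
        simp only [hβ']
        split_ifs <;> simp
    have s4 : HasSum (fun N : ℕ => q.eval (k : ℝ) * (1 / ((N + 1 : ℕ) : ℝ) ^ k)) (q.eval (k : ℝ) * zt k) := by
      have hz : Summable (fun n : ℕ => (1 : ℝ) / ((n + 1 : ℕ) : ℝ) ^ k) := by
        have h1 : Summable (fun n : ℕ => (1 : ℝ) / (n : ℝ) ^ k) := Real.summable_one_div_nat_pow.2 (by omega)
        exact h1.comp_injective (add_left_injective 1)
      exact hz.hasSum.mul_left _
    have s5 := ((s1.add s2).add s3).sub s4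
    rw [v1, v2, v3, hrel, sub_self] at s5
    refine s5.congr_fun ?_
    intro N
    simp only [hp]
    rw [Polynomial.eval_sub, Polynomial.eval_add, Polynomial.eval_add, Polynomial.eval_finsetSum,
      Polynomial.eval_finsetSum, Polynomial.eval_finsetSum]
    rw [mul_sub, mul_add, mul_add]
    congr 1
    · congr 1
      · congr 1
        · rw [Finset.mul_sum]
          simp only [mul_sub, Finset.sum_sub_distrib, Polynomial.eval_sub, Polynomial.eval_mul, Polynomial.eval_C]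
          congr 1
          · apply Finset.sum_congr rfl
            intro s _
            ring
          · have e1 := main_swap D (fun s t => 1 / ((N + 1 : ℕ) : ℝ) ^ k *
              (G t (N + 1) * ((a s).eval (k : ℝ) * ((k - 1 - t).choose (s - t) : ℝ))))
            have e2 : ∀ t ∈ Finset.Icc 1 D, 1 / ((N + 1 : ℕ) : ℝ) ^ k * (G t (N + 1) * (b t).eval (k : ℝ)) =
                ∑ s ∈ Finset.Icc t D, 1 / ((N + 1 : ℕ) : ℝ) ^ k *
              (G t (N + 1) * ((a s).eval (k : ℝ) * ((k - 1 - t).choose (s - t) : ℝ))) := by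
              intro t ht
              have ht' := Finset.mem_Icc.1 ht
              rw [hbk k (by omega) t ht'.1 ht'.2, Finset.mul_sum, Finset.mul_sum]
            rw [← Finset.sum_congr rfl e2] at e1
            rw [← e1]
            apply Finset.sum_congr rfl
            intro s _
            rw [Finset.mul_sum, Finset.mul_sum]
            apply Finset.sum_congr rfl
            intro t _
            ring
        · rw [Finset.mul_sum]
          apply Finset.sum_congr rfl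
          intro s _
          rw [Polynomial.eval_mul, Polynomial.eval_C]; ring
      · rw [Finset.mul_sum]
        apply Finset.sum_congr rfl
        intro s _
        rw [Polynomial.eval_mul, Polynomial.eval_C]; ring
    · ring
  -- bounds for degree and coefficients
  choose Cg hCg using (fun s : ℕ => fun hs : 1 ≤ s => hGRO s hs)
  obtain ⟨Cf, hCf0, hCf⟩ : ∃ Cf : ℝ, 0 ≤ Cf ∧ ∀ s ∈ Finset.Icc 1 D, ∀ N : ℕ, 1 ≤ N →
      |F s N| ≤ Cf * (N : ℝ) ^ (D + 1) ∧ |G s N| ≤ Cf * (N : ℝ) ^ (D + 1) ∧ |zt s| ≤ Cf := by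
    refine ⟨∑ s ∈ (Finset.Icc 1 D).attach, |Cg s.1 (Finset.mem_Icc.1 s.2).1| + ∑ s ∈ Finset.Icc 1 D, |zt s|,
      add_nonneg (Finset.sum_nonneg (fun _ _ => abs_nonneg _)) (Finset.sum_nonneg (fun _ _ => abs_nonneg _)), ?_⟩
    intro s hs N hN
    have hs' := Finset.mem_Icc.1 hs
    have h1 := hCg s hs'.1 N hN
    have hN1 : (1 : ℝ) ≤ (N : ℝ) := by exact_mod_cast hN
    have h2 : |Cg s hs'.1| ≤ ∑ s ∈ (Finset.Icc 1 D).attach, |Cg s.1 (Finset.mem_Icc.1 s.2).1| :=
      Finset.single_le_sum (f := fun s : {x // x ∈ Finset.Icc 1 D} => |Cg s.1 (Finset.mem_Icc.1 s.2).1|)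
        (fun _ _ => abs_nonneg _) (Finset.mem_attach _ ⟨s, hs⟩)
    have h3 : |zt s| ≤ ∑ s ∈ Finset.Icc 1 D, |zt s| :=
      Finset.single_le_sum (f := fun s => |zt s|) (fun _ _ => abs_nonneg _) hs
    have h4 : (N : ℝ) ^ (s + 1) ≤ (N : ℝ) ^ (D + 1) := pow_le_pow_right₀ hN1 (by omega)
    have h5 : Cg s hs'.1 * (N : ℝ) ^ (s + 1) ≤ (∑ s ∈ (Finset.Icc 1 D).attach, |Cg s.1 (Finset.mem_Icc.1 s.2).1| +
        ∑ s ∈ Finset.Icc 1 D, |zt s|) * (N : ℝ) ^ (D + 1) := by
      calc Cg s hs'.1 * (N : ℝ) ^ (s + 1) ≤ |Cg s hs'.1| * (N : ℝ) ^ (s + 1) :=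
            mul_le_mul_of_nonneg_right (le_abs_self _) (by positivity)
        _ ≤ _ := by
            apply mul_le_mul _ h4 (by positivity) _
            · have := Finset.sum_nonneg (s := Finset.Icc 1 D) (f := fun s => |zt s|) (fun _ _ => abs_nonneg _)
              linarith
            · exact add_nonneg (Finset.sum_nonneg (fun _ _ => abs_nonneg _)) (Finset.sum_nonneg (fun _ _ => abs_nonneg _))
    refine ⟨le_trans h1.1 h5, le_trans h1.2 h5, ?_⟩
    have := Finset.sum_nonneg (s := (Finset.Icc 1 D).attach)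
      (f := fun s : {x // x ∈ Finset.Icc 1 D} => |Cg s.1 (Finset.mem_Icc.1 s.2).1|) (fun _ _ => abs_nonneg _)
    linarith
  -- uniform bound for all coefficients of the finitely many polynomials
  have hbdall : ∃ B : ℝ, 0 ≤ B ∧ (∀ s ∈ Finset.Icc 1 D, ∀ j, |(a s).coeff j| ≤ B ∧ |(b s).coeff j| ≤ B ∧
      |(α' s).coeff j| ≤ B ∧ |(β' s).coeff j| ≤ B) ∧ ∀ j, |q.coeff j| ≤ B := by
    choose Ba hBa0 hBa using fun s => main_coeff_bd (a s)
    choose Bb hBb0 hBb using fun s => main_coeff_bd (b s)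
    choose Bα hBα0 hBα using fun s => main_coeff_bd (α' s)
    choose Bβ hBβ0 hBβ using fun s => main_coeff_bd (β' s)
    obtain ⟨Bq, hBq0, hBq⟩ := main_coeff_bd q
    have hs1 : ∀ s, 0 ≤ Ba s + Bb s + Bα s + Bβ s := fun s => by
      have := hBa0 s; have := hBb0 s; have := hBα0 s; have := hBβ0 s; positivity
    refine ⟨∑ s ∈ Finset.Icc 1 D, (Ba s + Bb s + Bα s + Bβ s) + Bq,
      add_nonneg (Finset.sum_nonneg (fun s _ => hs1 s)) hBq0, ?_, ?_⟩
    · intro s hs j
      have h1 := Finset.single_le_sum (f := fun s => Ba s + Bb s + Bα s + Bβ s) (fun s _ => hs1 s) hs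
      have h1' : Ba s + Bb s + Bα s + Bβ s ≤ ∑ s ∈ Finset.Icc 1 D, (Ba s + Bb s + Bα s + Bβ s) := h1
      have := hBa0 s; have := hBb0 s; have := hBα0 s; have := hBβ0 s
      have := hBa s j; have := hBb s j; have := hBα s j; have := hBβ s j
      refine ⟨by linarith, by linarith, by linarith, by linarith⟩
    · intro j
      have := Finset.sum_nonneg (s := Finset.Icc 1 D) (f := fun s => Ba s + Bb s + Bα s + Bβ s) (fun s _ => hs1 s)
      have := hBq j
      linarith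
  obtain ⟨B, hB0, hBs, hBq⟩ := hbdall
  have hcoef : ∀ N j, (p N).coeff j =
      ∑ s ∈ Finset.Icc 1 D, (F s (N + 1) * (a s).coeff j - G s (N + 1) * (b s).coeff j)
      + ∑ s ∈ (Finset.Icc 3 D).filter Odd, (((N + 1 : ℕ) : ℝ) ^ s * (zt s - h (N + 1) s)) * (α' s).coeff j
      + ∑ s ∈ (Finset.Icc 1 D).filter Odd, (((N + 1 : ℕ) : ℝ) ^ s * h N s) * (β' s).coeff j - q.coeff j := by
    intro N j
    simp only [hp]
    rw [Polynomial.coeff_sub, Polynomial.coeff_add, Polynomial.coeff_add, Polynomial.finsetSum_coeff,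
      Polynomial.finsetSum_coeff, Polynomial.finsetSum_coeff]
    congr 1
    congr 1
    · congr 1
      · apply Finset.sum_congr rfl
        intro s _
        rw [Polynomial.coeff_sub, Polynomial.coeff_C_mul, Polynomial.coeff_C_mul]
      · apply Finset.sum_congr rfl
        intro s _
        rw [Polynomial.coeff_C_mul]
    · apply Finset.sum_congr rfl
      intro s _
      rw [Polynomial.coeff_C_mul]
  have hcoefbd : ∀ N j, |(p N).coeff j| ≤ ((D + 1) * (8 * (Cf + 1) * B) + B) * ((N + 1 : ℕ) : ℝ) ^ (D + 1) := by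
    intro N j
    rw [hcoef]
    set y : ℝ := ((N + 1 : ℕ) : ℝ) with hy
    have hy1 : (1 : ℝ) ≤ y := by rw [hy]; push_cast; linarith [(Nat.cast_nonneg N : (0:ℝ) ≤ N)]
    have hyD : (1 : ℝ) ≤ y ^ (D + 1) := one_le_pow₀ hy1
    set K : ℝ := (Cf + 1) * B * y ^ (D + 1) with hK
    have hK0 : 0 ≤ K := by positivity
    have b1 : |∑ s ∈ Finset.Icc 1 D, (F s (N + 1) * (a s).coeff j - G s (N + 1) * (b s).coeff j)| ≤ D * (2 * K) := by
      apply main_sum_bd D _ (le_refl _) _ _ (by positivity)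
      intro s hs
      obtain ⟨c1, c2, c3⟩ := hCf s hs (N + 1) (by omega)
      obtain ⟨d1, d2, d3, d4⟩ := hBs s hs j
      refine le_trans (abs_sub _ _) ?_
      rw [abs_mul, abs_mul]
      have e1 := mul_le_mul c1 d1 (abs_nonneg _) (by positivity)
      have e2 := mul_le_mul c2 d2 (abs_nonneg _) (by positivity)
      have e3 : Cf * y ^ (D + 1) * B ≤ K := by
        rw [hK]
        have : 0 ≤ B * y ^ (D + 1) := by positivity
        nlinarith
      linarith
    have hterm : ∀ s ∈ Finset.Icc 1 D, ∀ u w : ℝ, |u| ≤ Cf + y → |w| ≤ B → |(y ^ s * u) * w| ≤ K := by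
      intro s hs u w hu hw
      have hs' := Finset.mem_Icc.1 hs
      rw [abs_mul, abs_mul, abs_of_nonneg (by positivity : 0 ≤ y ^ s)]
      have e1 : y ^ s ≤ y ^ D := pow_le_pow_right₀ hy1 hs'.2
      have e2 : Cf + y ≤ (Cf + 1) * y := by nlinarith
      calc y ^ s * |u| * |w| ≤ y ^ D * ((Cf + 1) * y) * B := by
            apply mul_le_mul _ hw (abs_nonneg _) (by positivity)
            exact mul_le_mul e1 (le_trans hu e2) (abs_nonneg _) (by positivity)
        _ = K := by rw [hK, pow_succ]; ring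
    have b2 : |∑ s ∈ (Finset.Icc 3 D).filter Odd, (y ^ s * (zt s - h (N + 1) s)) * (α' s).coeff j| ≤ D * K := by
      apply main_sum_bd D _ _ _ _ hK0
      · intro s hs
        have hs' := Finset.mem_Icc.1 (Finset.mem_filter.1 hs).1
        have hs2 : s ∈ Finset.Icc 1 D := Finset.mem_Icc.2 ⟨by omega, hs'.2⟩
        apply hterm s hs2 _ _ _ (hBs s hs2 j).2.2.1
        refine le_trans (abs_sub _ _) ?_
        have c3 := (hCf s hs2 (N + 1) (by omega)).2.2
        have c4 := OD.h_le (N + 1) s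
        rw [abs_of_nonneg (OD.h_nonneg (N + 1) s)]
        linarith
      · intro s hs
        have hs' := Finset.mem_Icc.1 (Finset.mem_filter.1 hs).1
        exact Finset.mem_Icc.2 ⟨by omega, hs'.2⟩
    have b3 : |∑ s ∈ (Finset.Icc 1 D).filter Odd, (y ^ s * h N s) * (β' s).coeff j| ≤ D * K := by
      apply main_sum_bd D _ (Finset.filter_subset _ _) _ _ hK0
      intro s hs
      have hs2 := (Finset.mem_filter.1 hs).1
      apply hterm s hs2 _ _ _ (hBs s hs2 j).2.2.2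
      have c4 := OD.h_le N s
      rw [abs_of_nonneg (OD.h_nonneg N s)]
      have : y = (N : ℝ) + 1 := by rw [hy]; push_cast; ring
      linarith
    have b4 := hBq j
    have t1 := abs_sub (∑ s ∈ Finset.Icc 1 D, (F s (N + 1) * (a s).coeff j - G s (N + 1) * (b s).coeff j)
      + ∑ s ∈ (Finset.Icc 3 D).filter Odd, (y ^ s * (zt s - h (N + 1) s)) * (α' s).coeff j
      + ∑ s ∈ (Finset.Icc 1 D).filter Odd, (y ^ s * h N s) * (β' s).coeff j) (q.coeff j)
    have t2 := abs_add_le (∑ s ∈ Finset.Icc 1 D, (F s (N + 1) * (a s).coeff j - G s (N + 1) * (b s).coeff j)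
      + ∑ s ∈ (Finset.Icc 3 D).filter Odd, (y ^ s * (zt s - h (N + 1) s)) * (α' s).coeff j)
      (∑ s ∈ (Finset.Icc 1 D).filter Odd, (y ^ s * h N s) * (β' s).coeff j)
    have t3 := abs_add_le (∑ s ∈ Finset.Icc 1 D, (F s (N + 1) * (a s).coeff j - G s (N + 1) * (b s).coeff j))
      (∑ s ∈ (Finset.Icc 3 D).filter Odd, (y ^ s * (zt s - h (N + 1) s)) * (α' s).coeff j)
    have b5 : B ≤ B * y ^ (D + 1) := le_mul_of_one_le_right hB0 hyD
    have hD0 : (0 : ℝ) ≤ (D : ℝ) := Nat.cast_nonneg D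
    have t5 : ((D + 1) * (8 * (Cf + 1) * B) + B) * y ^ (D + 1) = (D + 1) * (8 * K) + B * y ^ (D + 1) := by
      rw [hK]; ring
    rw [t5]
    nlinarith
  obtain ⟨d', hd'⟩ : ∃ d', ∀ N, (p N).natDegree ≤ d' := by
    refine ⟨∑ s ∈ Finset.Icc 1 D, ((a s).natDegree + (b s).natDegree + (α' s).natDegree + (β' s).natDegree) + q.natDegree, ?_⟩
    intro N
    rw [Polynomial.natDegree_le_iff_coeff_eq_zero]
    intro j hj
    have hs1 : ∀ s ∈ Finset.Icc 1 D, (a s).coeff j = 0 ∧ (b s).coeff j = 0 ∧ (α' s).coeff j = 0 ∧ (β' s).coeff j = 0 := by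
      intro s hs
      have h1 := Finset.single_le_sum (f := fun s => (a s).natDegree + (b s).natDegree + (α' s).natDegree + (β' s).natDegree)
        (fun _ _ => Nat.zero_le _) hs
      have h1' : (a s).natDegree + (b s).natDegree + (α' s).natDegree + (β' s).natDegree ≤
        ∑ s ∈ Finset.Icc 1 D, ((a s).natDegree + (b s).natDegree + (α' s).natDegree + (β' s).natDegree) := h1
      refine ⟨Polynomial.coeff_eq_zero_of_natDegree_lt (by omega), Polynomial.coeff_eq_zero_of_natDegree_lt (by omega),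
        Polynomial.coeff_eq_zero_of_natDegree_lt (by omega), Polynomial.coeff_eq_zero_of_natDegree_lt (by omega)⟩
    rw [hcoef, Finset.sum_eq_zero, Finset.sum_eq_zero, Finset.sum_eq_zero,
      Polynomial.coeff_eq_zero_of_natDegree_lt (by omega : q.natDegree < j)]
    · ring
    · intro s hs
      rw [(hs1 s (Finset.mem_filter.1 hs).1).2.2.2, mul_zero]
    · intro s hs
      have hs' := Finset.mem_Icc.1 (Finset.mem_filter.1 hs).1
      rw [(hs1 s (Finset.mem_Icc.2 ⟨by omega, hs'.2⟩)).2.2.1, mul_zero]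
    · intro s hs
      rw [(hs1 s hs).1, (hs1 s hs).2.1, mul_zero, mul_zero, sub_zero]
  have hzero : ∀ N, p N = 0 := by
    refine hSEP p d' (D + 1) _ hd' hcoefbd ?_
    refine Set.Infinite.mono ?_ ((hinf.sdiff (Set.finite_lt_nat (D + 5))).image (f := fun m => 2 * m) ?_)
    · intro k hk
      obtain ⟨m, hm, rfl⟩ := hk
      have h1 : D + 5 ≤ m := by
        have := hm.2
        simpa using this
      exact hexp m (by omega) hm.1
    · intro x _ y _ hxy
      simp only at hxy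
      omega
  have hj : ∀ j, (∀ s ∈ Finset.Icc 1 D, Even s → (a s).coeff j = 0) ∧ (∀ s ∈ Finset.Icc 1 D, (b s).coeff j = (a s).coeff j) ∧
      (∀ s ∈ (Finset.Icc 3 D).filter Odd, (α' s).coeff j = - (a s).coeff j) ∧
      (∀ s ∈ (Finset.Icc 1 D).filter Odd, (β' s).coeff j = 0) ∧
      ∑ s ∈ Finset.Icc 1 D, (1 / 2) * (a s).coeff j * (1 - (1 / 2) ^ s) = q.coeff j := by
    intro j
    apply hIND2 D (fun s => (a s).coeff j) (fun s => (b s).coeff j) (fun s => (α' s).coeff j)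
      (fun s => (β' s).coeff j) (q.coeff j)
    intro N hN
    obtain ⟨M, rfl⟩ : ∃ M, N = M + 1 := ⟨N - 1, by omega⟩
    have h1 := hcoef M j
    rw [hzero M, Polynomial.coeff_zero] at h1
    have h2 : q.coeff j = ∑ s ∈ Finset.Icc 1 D, (F s (M + 1) * (a s).coeff j - G s (M + 1) * (b s).coeff j)
      + ∑ s ∈ (Finset.Icc 3 D).filter Odd, (((M + 1 : ℕ) : ℝ) ^ s * (zt s - h (M + 1) s)) * (α' s).coeff j
      + ∑ s ∈ (Finset.Icc 1 D).filter Odd, (((M + 1 : ℕ) : ℝ) ^ s * h M s) * (β' s).coeff j := by linarith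
    rw [h2]
    congr 1
    · congr 1
      · apply Finset.sum_congr rfl
        intro s _
        ring
      · apply Finset.sum_congr rfl
        intro s _
        ring
    · apply Finset.sum_congr rfl
      intro s _
      rw [Nat.add_sub_cancel]
      ring
  have ha_even : ∀ s ∈ Finset.Icc 1 D, Even s → a s = 0 := by
    intro s hs he
    ext j
    rw [Polynomial.coeff_zero]
    exact (hj j).1 s hs he
  have hba : ∀ s ∈ Finset.Icc 1 D, b s = a s := by
    intro s hs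
    ext j
    exact (hj j).2.1 s hs
  have ha0' : ∀ s ∈ Finset.Icc 2 D, a s = 0 := by
    apply hALG D a ha_even
    refine Set.Infinite.mono ?_ (Set.Ici_infinite (D + 2))
    intro k hk t ht
    have ht' := Finset.mem_Icc.1 ht
    rw [← hbk k hk t ht'.1 ht'.2, hba t ht]
  have hq : q = C (1 / 4) * a 1 := by
    ext j
    rw [Polynomial.coeff_C_mul, ← (hj j).2.2.2.2]
    rw [Finset.sum_eq_single 1]
    · ring
    · intro s hs hs1
      have hs' := Finset.mem_Icc.1 hs
      rw [ha0' s (Finset.mem_Icc.2 ⟨by omega, hs'.2⟩), Polynomial.coeff_zero]; ring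
    · intro hcon
      exact absurd (Finset.mem_Icc.2 ⟨le_refl 1, by omega⟩) hcon
  have hPval : ∀ r : ℕ, 1 ≤ r → ∀ y : ℝ, P.evalEval (r : ℝ) y = 4 * q.eval y := by
    intro r hr y
    rw [hP r hr y, Finset.sum_eq_single 1]
    · rw [hq, Polynomial.eval_mul, Polynomial.eval_C]
      simp
    · intro s hs hs1
      have hs' := Finset.mem_Icc.1 hs
      rw [ha0' s (Finset.mem_Icc.2 ⟨by omega, hs'.2⟩), Polynomial.eval_zero, zero_mul]
    · intro hcon
      exact absurd (Finset.mem_Icc.2 ⟨le_refl 1, by omega⟩) hcon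
  refine ⟨?_, ?_, ?_⟩
  · intro x y
    have h1 : (P.eval (C y)) = C (4 * q.eval y) := by
      apply Polynomial.eq_of_infinite_eval_eq
      refine Set.Infinite.mono (s := Set.range (fun n : ℕ => ((n + 1 : ℕ) : ℝ))) ?_ ?_
      · rintro _ ⟨n, rfl⟩
        have := hPval (n + 1) (by omega) y
        simp only [Set.mem_ofPred_eq, Polynomial.eval_C]
        exact this
      · apply Set.infinite_range_of_injective
        intro u v huv
        have : ((u + 1 : ℕ) : ℝ) = ((v + 1 : ℕ) : ℝ) := huv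
        have := Nat.cast_injective this
        omega
    unfold Polynomial.evalEval
    rw [h1, Polynomial.eval_C]
  · intro x hx
    have hx' := Finset.mem_Icc.1 hx
    have h1 : α' (2 * x + 1) = α x := by
      simp only [hα']
      rw [if_pos (by omega)]
      congr 1
      omega
    ext j
    rw [← h1, Polynomial.coeff_zero]
    rw [(hj j).2.2.1 (2 * x + 1) (Finset.mem_filter.2 ⟨Finset.mem_Icc.2 ⟨by omega, by omega⟩, ⟨x, rfl⟩⟩)]
    rw [ha0' (2 * x + 1) (Finset.mem_Icc.2 ⟨by omega, by omega⟩), Polynomial.coeff_zero, neg_zero]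
  · intro x hx
    have hx' := Finset.mem_Icc.1 hx
    have h1 : β' (2 * x - 1) = β x := by
      simp only [hβ']
      rw [if_pos (by omega)]
      congr 1
      omega
    ext j
    rw [← h1, Polynomial.coeff_zero]
    exact (hj j).2.2.2.1 (2 * x - 1) (Finset.mem_filter.2 ⟨Finset.mem_Icc.2 ⟨by omega, by omega⟩, ⟨x - 1, by omega⟩⟩)

end Pool.Agent.Helper43.SF
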