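import Mathlib
import Pool.Agent.Helper43.SF.Main
import Pool.Agent.Helper61.SF.NEWT
import Pool.Agent.Helper61.SF.CHS
import Pool.Agent.Helper61.SF.EXPD
import Pool.Agent.Helper61.SF.BL
import Pool.Agent.Helper92.SF.SEP
import Pool.Agent.Helper92.SF.GY
import Pool.Agent.Helper58.SF.IND2
import Pool.Agent.Helper81.SF.BP
import Pool.Agent.Helper81.SF.ALG
import Pool.Agent.Helper81.SF.GRO
import Pool.Agent.Helper28.SF.FX
import Pool.Agent.Helper44.SF.GEO
import Pool.Agent.Helper44.SF.IND1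

set_option autoImplicit false

namespace Pool.Agent.Helper43.SF

theorem all_MAIN : ST_MAIN :=
  st_MAIN (st_EXPD (st_GEO st_CHS) st_FX st_GY) st_BL st_SEP (st_IND2 st_IND1) st_BP st_ALG
    st_NEWT st_GRO

end Pool.Agent.Helper43.SF
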